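import Pool.Agent.V11286.NE.Exc

/-! Sets of dimension less than one have measure zero; the countably many finite-dimensional spaces `K + K π + ⋯ + K π ^ e`
for number fields `K`. -/

set_option autoImplicit false

open Finset Filter Topology MeasureTheory

namespace Pool.Agent.V11286.NE

open scoped ENNReal NNReal

theorem vol_zero {E : Set ℝ} {x : ℝ} (hx : x < 1) (h : dimH E ≤ ENNReal.ofReal x) : volume E = 0 := by
  have h1 : dimH E < ((1 : ℝ≥0) : ℝ≥0∞) := by
    refine h.trans_lt ?_
    rw [ENNReal.coe_one]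
    exact ENNReal.ofReal_lt_one.2 hx
  refine measure_zero_of_dimH_lt (d := 1) ?_ h1
  have : (Measure.hausdorffMeasure ((1 : ℝ≥0) : ℝ) : Measure ℝ) = volume := by
    rw [NNReal.coe_one]
    exact hausdorffMeasure_real
  rw [this]

/-- the exponent of a ratio -/
theorem ratio_lt {c : ℝ} (hc : 0 < c) (hc1 : c < 1) : (1 - c + 0) / (1 - c / 2) < 1 := by
  rw [div_lt_one (by linarith)]
  linarith

/-- `2 ^ n` has exponent of convergence zero -/
theorem expLe_two : Pool.Agent.Y854.GM.ExpLe (fun n : ℕ => (2 : ℝ) ^ n) 0 := by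
  intro t ht
  have h1 : ∀ n : ℕ, ((2 : ℝ) ^ n) ^ (-t) = ((2 : ℝ) ^ (-t)) ^ n := by
    intro n
    rw [← Real.rpow_natCast, ← Real.rpow_natCast, ← Real.rpow_mul (by norm_num), ← Real.rpow_mul (by norm_num)]
    congr 1
    ring
  simp_rw [h1]
  apply summable_geometric_of_lt_one (Real.rpow_nonneg (by norm_num) _)
  exact Real.rpow_lt_one_of_one_lt_of_neg (by norm_num) (by linarith)

/-- there are countably many number fields in the complex numbers -/
theorem countable_fields : {K : IntermediateField ℚ ℂ | FiniteDimensional ℚ K}.Countable := by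
  classical
  have hA : {x : ℂ | IsAlgebraic ℚ x}.Countable := Algebraic.countable ℚ ℂ
  have hF : {s : Set ℂ | s.Finite ∧ s ⊆ {x : ℂ | IsAlgebraic ℚ x}}.Countable := Set.countable_ofPred_finite_subset hA
  refine (hF.image fun s => IntermediateField.adjoin ℚ s).mono ?_
  intro K hK
  have hK' : FiniteDimensional ℚ K := hK
  obtain ⟨s, hs⟩ : ∃ s : Finset ℂ, IntermediateField.adjoin ℚ (s : Set ℂ) = K := by
    obtain ⟨s, hs⟩ := IntermediateField.essFiniteType_iff.1 (inferInstance : Algebra.EssFiniteType ℚ K)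
    exact ⟨s, hs⟩
  refine ⟨s, ⟨s.finite_toSet, fun x hx => ?_⟩, hs⟩
  have hxK : x ∈ K := by
    rw [← hs]
    exact IntermediateField.subset_adjoin _ _ hx
  have h1 : IsAlgebraic ℚ (⟨x, hxK⟩ : K) := Algebra.IsAlgebraic.isAlgebraic _
  exact h1.algebraMap (A := ℂ)

/-- the space `K + K π + ⋯ + K π ^ e` -/
noncomputable def piSpace (K : IntermediateField ℚ ℂ) (e : ℕ) : Submodule ℚ ℂ :=
  ⨆ a : Fin (e + 1), (K.toSubalgebra.toSubmodule).map (LinearMap.mulRight ℚ ((Real.pi : ℂ) ^ (a : ℕ)))

theorem piSpace_finite (K : IntermediateField ℚ ℂ) [FiniteDimensional ℚ K] (e : ℕ) : Module.Finite ℚ (piSpace K e) := by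
  unfold piSpace
  have h : ∀ a : Fin (e + 1), Module.Finite ℚ
      ((K.toSubalgebra.toSubmodule).map (LinearMap.mulRight ℚ ((Real.pi : ℂ) ^ (a : ℕ)))) := by
    intro a
    have : Module.Finite ℚ K.toSubalgebra.toSubmodule := (inferInstance : FiniteDimensional ℚ K)
    infer_instance
  exact Submodule.finite_iSup _

end Pool.Agent.V11286.NE
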