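import Pool.Agent.V11286.NE.Wt
import Pool.Agent.Y916.Sl.Many

/-! Thin sets of tuples of algebraic integers of degree `m`, and windows around almost every direction. -/

set_option autoImplicit false

open MeasureTheory Polynomial

namespace Pool.Agent.V11286.NE

/-- `2 ^ n` grows fast -/
theorem sum_two (s : ℝ) (hs : 0 < s) : Summable fun n : ℕ => ((2 : ℝ) ^ n) ^ (-s) := by
  have h : (fun n : ℕ => ((2 : ℝ) ^ n) ^ (-s)) = fun n => ((2 : ℝ) ^ (-s)) ^ n := by
    funext n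
    rw [← Real.rpow_natCast, ← Real.rpow_mul (by norm_num), ← Real.rpow_natCast, ← Real.rpow_mul (by norm_num)]
    congr 1
    ring
  rw [h]
  exact summable_geometric_of_lt_one (by positivity) (Real.rpow_lt_one_of_one_lt_of_neg (by norm_num) (by linarith))

theorem min_eq {f : ℤ[X]} {α : ℂ} (h1 : f.Monic) (h2 : Irreducible f) (h3 : aeval α f = 0) :
    f.map (Int.castRingHom ℚ) = minpoly ℚ α := by
  have h4 : Irreducible (f.map (algebraMap ℤ ℚ)) := (Monic.irreducible_iff_irreducible_map_fraction_map h1).1 h2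
  refine minpoly.eq_of_irreducible_of_monic h4 ?_ (h1.map _)
  exact (Polynomial.aeval_map_algebraMap ℚ α f).trans h3

/-- the exponent of the windows -/
noncomputable def expo (k m : ℕ) (c : ℝ) : ℝ := min c ((k * m : ℕ) : ℝ) / (2 * ((k * m : ℕ) : ℝ))

theorem expo_pos {k m : ℕ} (hk : 1 ≤ k) (hm : 1 ≤ m) {c : ℝ} (hc : 0 < c) : 0 < expo k m c := by
  have h : (0 : ℝ) < ((k * m : ℕ) : ℝ) := Nat.cast_pos.2 (Nat.mul_pos hk hm)
  exact div_pos (lt_min hc h) (by linarith)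

/-- **Tuples of algebraic integers in windows around almost every direction.** If `Bad` contains at most
`C T ^ (k m (m + 1) / 2 - c)` of the `k`-tuples of roots of monic integral polynomials of degree `m` with all roots at
most `T`, then for almost all matrices `A` and all large `N` no `k`-tuple of roots of irreducible monic integral
polynomials of degree `m` with coefficients near `A_ij v_N ^ (m - j)` is in `Bad`. -/
theorem roots_ae {k m : ℕ} (hk : 1 ≤ k) (hm : 1 ≤ m) (Bad : Set (Fin k → ℂ)) {c C : ℝ} (hc : 0 < c) (hC0 : 0 ≤ C)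
    (h : ∀ T : ℕ, 1 ≤ T → {α : Fin k → ℂ | (∀ i, Pool.Agent.Y916.Sl.AInt m T (α i)) ∧ α ∈ Bad}.Finite ∧
      ({α : Fin k → ℂ | (∀ i, Pool.Agent.Y916.Sl.AInt m T (α i)) ∧ α ∈ Bad}.ncard : ℝ) ≤
        C * (T : ℝ) ^ (((k * Pool.Agent.Y916.Sl.Mm m : ℕ) : ℝ) - c)) {v : ℕ → ℝ} (hv1 : ∀ n, 1 ≤ v n)
    (hv : ∀ s : ℝ, 0 < s → Summable (fun n : ℕ => (v n) ^ (-s))) :
    ∀ᵐ A : Fin k × Fin m → ℝ, ∃ N₀ : ℕ, ∀ N : ℕ, N₀ ≤ N → ∀ f : Fin k → ℤ[X],
      (∀ i, (f i).Monic ∧ (f i).natDegree = m ∧ Irreducible (f i)) →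
        (∀ (i : Fin k) (j : Fin m), |((f i).coeff j : ℝ) - A (i, j) * (v N) ^ (m - (j : ℕ))| ≤ (v N) ^ expo k m c) →
          ∀ α : Fin k → ℂ, (∀ i, aeval (α i) (f i) = 0) → α ∉ Bad := by
  classical
  set wt : Fin k × Fin m → ℕ := fun p => m - (p.2 : ℕ) with hwt
  have hwt1 : ∀ p, 1 ≤ wt p := fun p => by
    have := p.2.2
    simp only [hwt]
    omega
  have hsum : (∑ p, wt p : ℕ) = k * Pool.Agent.Y916.Sl.Mm m := by
    rw [Fintype.sum_prod_type]
    simp only [hwt]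
    rw [Finset.sum_const, Finset.card_univ, Fintype.card_fin, smul_eq_mul]
    rfl
  have hcard : Fintype.card (Fin k × Fin m) = k * m := by
    rw [Fintype.card_prod, Fintype.card_fin, Fintype.card_fin]
  set q : ℝ := ((k * m : ℕ) : ℝ) with hqdef
  have hq : 0 < q := Nat.cast_pos.2 (Nat.mul_pos hk hm)
  have hkW : q ≤ ((∑ p, wt p : ℕ) : ℝ) := by
    have : k * m ≤ ∑ p, wt p := by
      calc k * m = ∑ _p : Fin k × Fin m, 1 := by simp
        _ ≤ _ := Finset.sum_le_sum fun p _ => hwt1 p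
    rw [hqdef]
    exact Nat.cast_le.2 this
  set Bd : Set (Fin k × Fin m → ℤ) := {a | (∀ i, Irreducible (Pool.Agent.Y916.Sl.pol m fun j => a (i, j))) ∧
    ∃ α : Fin k → ℂ, (∀ i, aeval (α i) (Pool.Agent.Y916.Sl.pol m fun j => a (i, j)) = 0) ∧ α ∈ Bad} with hBd
  have hck : min c q ≤ q := min_le_right _ _
  have main := ae_wt wt hwt1 Bd (c := min c q)
    (C := C * (m : ℝ) ^ (((k * Pool.Agent.Y916.Sl.Mm m : ℕ) : ℝ) - min c q)) ?_
    (hck.trans hkW) hv1 hv (θ := expo k m c) ?_ ?_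
  · filter_upwards [main] with A hA
    obtain ⟨N₀, hN₀⟩ := hA
    refine ⟨N₀, fun N hN f hf hnear α hα hbad => ?_⟩
    refine hN₀ N hN (fun p => (f p.1).coeff (p.2 : ℕ)) (fun p => hnear p.1 p.2) ?_
    have hpol : ∀ i, Pool.Agent.Y916.Sl.pol m (fun j => (f i).coeff (j : ℕ)) = f i := fun i =>
      Pool.Agent.Y916.Sl.pol_coeff (hf i).1 (hf i).2.1
    refine ⟨fun i => ?_, α, fun i => ?_, hbad⟩
    · show Irreducible (Pool.Agent.Y916.Sl.pol m (fun j => (f i).coeff (j : ℕ)))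
      rw [hpol i]
      exact (hf i).2.2
    · show aeval (α i) (Pool.Agent.Y916.Sl.pol m (fun j => (f i).coeff (j : ℕ))) = 0
      rw [hpol i]
      exact hα i
  · intro T hT
    have hmT : 1 ≤ m * T := Nat.mul_pos hm hT
    have hmT1 : (1 : ℝ) ≤ ((m * T : ℕ) : ℝ) := by exact_mod_cast hmT
    obtain ⟨h1, h2⟩ := h (m * T) hmT
    set S : Set (Fin k → ℂ) := {α : Fin k → ℂ | (∀ i, Pool.Agent.Y916.Sl.AInt m ((m * T : ℕ) : ℝ) (α i)) ∧
      α ∈ Bad} with hS
    -- the choice of the roots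
    have hch : ∀ t : Fin k × Fin m → ℤ, ∃ α : Fin k → ℂ, t ∈ Bd →
        (∀ i, aeval (α i) (Pool.Agent.Y916.Sl.pol m fun j => t (i, j)) = 0) ∧ α ∈ Bad := by
      intro t
      by_cases ht : t ∈ Bd
      · obtain ⟨-, α, hα, hF⟩ := ht
        exact ⟨α, fun _ => ⟨hα, hF⟩⟩
      · exact ⟨0, fun h => absurd h ht⟩
    choose g hg using hch
    have h3 : ({t : Fin k × Fin m → ℤ | (∀ p, |t p| ≤ (T : ℤ) ^ wt p) ∧ t ∈ Bd}.ncard) ≤ S.ncard := by
      refine Set.ncard_le_ncard_of_injOn g ?_ ?_ h1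
      · rintro t ⟨ht1, ht2⟩
        obtain ⟨h4, h5⟩ := hg t ht2
        refine ⟨fun i => ⟨Pool.Agent.Y916.Sl.pol m fun j => t (i, j), Pool.Agent.Y916.Sl.pol_monic _,
          Pool.Agent.Y916.Sl.pol_natDegree _, h4 i, fun y hy => ?_⟩, h5⟩
        refine Pool.Agent.Y916.Sl.pol_root_bound hm (fun j => t (i, j)) (T := m * T) (fun j => ?_) hy
        have h6 := ht1 (i, j)
        have h7 : |((t (i, j) : ℤ) : ℝ)| ≤ (T : ℝ) ^ (m - (j : ℕ)) := by
          have : ((|t (i, j)| : ℤ) : ℝ) ≤ (((T : ℤ) ^ wt (i, j) : ℤ) : ℝ) := by exact_mod_cast h6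
          push_cast at this
          exact this
        have hj : 1 ≤ m - (j : ℕ) := hwt1 (i, j)
        calc (m : ℝ) * |((t (i, j) : ℤ) : ℝ)| ≤ (m : ℝ) ^ (m - (j : ℕ)) * (T : ℝ) ^ (m - (j : ℕ)) := by
              refine mul_le_mul ?_ h7 (abs_nonneg _) (by positivity)
              calc (m : ℝ) = (m : ℝ) ^ 1 := (pow_one _).symm
                _ ≤ _ := pow_le_pow_right₀ (by exact_mod_cast hm) hj
          _ = ((m * T : ℕ) : ℝ) ^ (m - (j : ℕ)) := by
              push_cast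
              rw [mul_pow]
      · rintro s ⟨hs1, hs2⟩ t ⟨ht1, ht2⟩ hst
        obtain ⟨h4, -⟩ := hg s hs2
        obtain ⟨h5, -⟩ := hg t ht2
        funext p
        have h6 := min_eq (Pool.Agent.Y916.Sl.pol_monic _) (hs2.1 p.1) (h4 p.1)
        have h7 := min_eq (Pool.Agent.Y916.Sl.pol_monic _) (ht2.1 p.1) (h5 p.1)
        rw [hst, ← h7] at h6
        have h8 := Polynomial.map_injective _ (RingHom.injective_int (Int.castRingHom ℚ)) h6
        have h9 : (Pool.Agent.Y916.Sl.pol m fun j => s (p.1, j)).coeff (p.2 : ℕ) =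
            (Pool.Agent.Y916.Sl.pol m fun j => t (p.1, j)).coeff (p.2 : ℕ) := by rw [h8]
        rw [Pool.Agent.Y916.Sl.pol_coeff_lt, Pool.Agent.Y916.Sl.pol_coeff_lt] at h9
        exact h9
    rw [hsum]
    calc _ ≤ (S.ncard : ℝ) := by exact_mod_cast h3
      _ ≤ C * ((m * T : ℕ) : ℝ) ^ (((k * Pool.Agent.Y916.Sl.Mm m : ℕ) : ℝ) - c) := h2
      _ ≤ C * ((m * T : ℕ) : ℝ) ^ (((k * Pool.Agent.Y916.Sl.Mm m : ℕ) : ℝ) - min c q) :=
          mul_le_mul_of_nonneg_left (Real.rpow_le_rpow_of_exponent_le hmT1 (by linarith [min_le_left c q])) hC0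
      _ = _ := by
          rw [Nat.cast_mul m T, Real.mul_rpow (Nat.cast_nonneg _) (Nat.cast_nonneg _), mul_assoc]
  · unfold expo
    rw [div_le_one (by linarith)]
    linarith
  · rw [hcard]
    unfold expo
    have h0 : q * (min c q / (2 * q)) = min c q / 2 := by
      field_simp
    rw [h0]
    have := lt_min hc hq
    linarith

end Pool.Agent.V11286.NE
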