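import Mathlib

/-! Thin sets of `k`-tuples of integers and windows around the points `(α_1 v_n, …, α_k v_n)`: for almost all `α` the windows
contain no element of the thin set. -/

set_option autoImplicit false

open Finset Filter Topology MeasureTheory

namespace Pool.Agent.V11286.NE

open scoped ENNReal NNReal

theorem vol_cube {k : ℕ} (t : Fin k → ℕ) {v r : ℝ} (hv : 0 < v) (hr : 0 ≤ r) :
    volume {α : Fin k → ℝ | ∀ i, |(t i : ℝ) - α i * v| ≤ r} = ENNReal.ofReal ((2 * (r / v)) ^ k) := by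
  have e : {α : Fin k → ℝ | ∀ i, |(t i : ℝ) - α i * v| ≤ r} = Metric.closedBall (fun i => (t i : ℝ) / v) (r / v) := by
    rw [closedBall_pi _ (by positivity)]
    ext α
    simp only [Set.mem_ofPred_eq, Set.mem_pi, Set.mem_univ, true_implies, Metric.mem_closedBall, Real.dist_eq]
    refine forall_congr' fun i => ?_
    have h1 : α i - (t i : ℝ) / v = -((t i : ℝ) - α i * v) / v := by
      field_simp
      ring
    rw [h1, abs_div, abs_neg, abs_of_pos hv]
    exact (div_le_div_iff_of_pos_right hv).symm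
  rw [e, Real.volume_pi_closedBall _ (by positivity), Fintype.card_fin]

/-- **almost all windows of tuples contain no element of a thin set** -/
theorem ae_tuples {k : ℕ} (Bad : Set (Fin k → ℕ)) {c C : ℝ}
    (h : ∀ T : ℕ, 1 ≤ T → ({t : Fin k → ℕ | (∀ i, t i ≤ T) ∧ t ∈ Bad}.ncard : ℝ) ≤ C * (T : ℝ) ^ ((k : ℝ) - c))
    (hck : c ≤ k) {v : ℕ → ℝ} (hv1 : ∀ n, 1 ≤ v n) (hv : ∀ s : ℝ, 0 < s → Summable (fun n : ℕ => (v n) ^ (-s)))
    {θ : ℝ} (hθ1 : θ ≤ 1) (hθ : k * θ < c) :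
    ∀ᵐ α : Fin k → ℝ, ∃ n₀ : ℕ, ∀ n : ℕ, n₀ ≤ n → ∀ t : Fin k → ℕ, (∀ i, |(t i : ℝ) - α i * v n| ≤ (v n) ^ θ) →
      t ∉ Bad := by
  have hvp : ∀ n, 0 < v n := fun n => lt_of_lt_of_le one_pos (hv1 n)
  -- the bad sets
  set B : ℕ → ℕ → Set (Fin k → ℝ) := fun A n => {α | (∀ i, α i ≤ A) ∧ ∃ t : Fin k → ℕ,
    (∀ i, |(t i : ℝ) - α i * v n| ≤ (v n) ^ θ) ∧ t ∈ Bad} with hB
  have hnull : ∀ A : ℕ, volume {α : Fin k → ℝ | ∃ᶠ n in atTop, α ∈ B A n} = 0 := by
    intro A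
    apply measure_setOfPred_frequently_eq_zero
    set s : ℝ := c - k * θ with hs
    have hs0 : 0 < s := by linarith
    set K : ℝ := |C| * ((A : ℝ) + 2) ^ ((k : ℝ) - c) * 2 ^ k with hK
    have hK0 : 0 ≤ K := by positivity
    have hbound : ∀ n, volume (B A n) ≤ ENNReal.ofReal (K * (v n) ^ (-s)) := by
      intro n
      have hn1 := hv1 n
      have hn0 := hvp n
      set T : ℕ := ⌊((A : ℝ) + 1) * v n⌋₊ with hT
      have hA0 : (0 : ℝ) ≤ A := Nat.cast_nonneg A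
      have hT1 : 1 ≤ T := Nat.le_floor (by push_cast; nlinarith)
      set F : Set (Fin k → ℕ) := {t : Fin k → ℕ | (∀ i, t i ≤ T) ∧ t ∈ Bad} with hF
      have hFfin : F.Finite := (Set.finite_Iic (fun _ : Fin k => T)).subset fun t ht i => ht.1 i
      have hθv : (v n) ^ θ ≤ v n := by
        calc (v n) ^ θ ≤ (v n) ^ (1 : ℝ) := Real.rpow_le_rpow_of_exponent_le hn1 hθ1
          _ = v n := Real.rpow_one _
      have hsub : B A n ⊆ ⋃ t ∈ hFfin.toFinset, {α : Fin k → ℝ | ∀ i, |(t i : ℝ) - α i * v n| ≤ (v n) ^ θ} := by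
        rintro α ⟨hα, t, ht, htB⟩
        rw [Set.mem_iUnion₂]
        refine ⟨t, ?_, ht⟩
        rw [Set.Finite.mem_toFinset]
        refine ⟨fun i => Nat.le_floor ?_, htB⟩
        have h1 := (abs_le.1 (ht i)).2
        have h2 : α i * v n ≤ A * v n := mul_le_mul_of_nonneg_right (hα i) hn0.le
        linarith
      refine (measure_mono hsub).trans ((measure_biUnion_finset_le _ _).trans ?_)
      have h1 : ∀ t ∈ hFfin.toFinset, volume {α : Fin k → ℝ | ∀ i, |(t i : ℝ) - α i * v n| ≤ (v n) ^ θ} ≤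
          ENNReal.ofReal ((2 * ((v n) ^ θ / v n)) ^ k) := fun t _ =>
        (vol_cube t hn0 (Real.rpow_nonneg hn0.le _)).le
      refine (sum_le_card_nsmul _ _ _ h1).trans ?_
      rw [← Set.ncard_eq_toFinset_card F hFfin, nsmul_eq_mul, ← ENNReal.ofReal_natCast, ← ENNReal.ofReal_mul (Nat.cast_nonneg _)]
      apply ENNReal.ofReal_le_ofReal
      have h2 : (F.ncard : ℝ) ≤ |C| * (((A : ℝ) + 2) ^ ((k : ℝ) - c) * (v n) ^ ((k : ℝ) - c)) := by
        refine (h T hT1).trans ?_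
        have hTle : (T : ℝ) ≤ ((A : ℝ) + 2) * v n := by
          have := Nat.floor_le (show (0 : ℝ) ≤ ((A : ℝ) + 1) * v n by positivity)
          nlinarith
        have h3 : (T : ℝ) ^ ((k : ℝ) - c) ≤ (((A : ℝ) + 2) * v n) ^ ((k : ℝ) - c) :=
          Real.rpow_le_rpow (Nat.cast_nonneg _) hTle (by linarith)
        rw [Real.mul_rpow (by positivity) hn0.le] at h3
        calc C * (T : ℝ) ^ ((k : ℝ) - c) ≤ |C| * (T : ℝ) ^ ((k : ℝ) - c) :=
              mul_le_mul_of_nonneg_right (le_abs_self C) (by positivity)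
          _ ≤ _ := mul_le_mul_of_nonneg_left h3 (abs_nonneg C)
      have h4 : (2 * ((v n) ^ θ / v n)) ^ k = 2 ^ k * (v n) ^ ((θ - 1) * k) := by
        rw [mul_pow, Real.rpow_mul hn0.le, Real.rpow_natCast, Real.rpow_sub hn0, Real.rpow_one]
      rw [h4]
      calc (F.ncard : ℝ) * (2 ^ k * (v n) ^ ((θ - 1) * k)) ≤
            (|C| * (((A : ℝ) + 2) ^ ((k : ℝ) - c) * (v n) ^ ((k : ℝ) - c))) * (2 ^ k * (v n) ^ ((θ - 1) * k)) :=
              mul_le_mul_of_nonneg_right h2 (by positivity)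
        _ = K * ((v n) ^ ((k : ℝ) - c) * (v n) ^ ((θ - 1) * k)) := by rw [hK]; ring
        _ = K * (v n) ^ (-s) := by
            rw [← Real.rpow_add hn0]
            congr 2
            rw [hs]
            ring
    have hsum : Summable (fun n => K * (v n) ^ (-s)) := (hv s hs0).mul_left K
    refine ne_top_of_le_ne_top ?_ (ENNReal.tsum_le_tsum hbound)
    rw [← ENNReal.ofReal_tsum_of_nonneg (fun n => mul_nonneg hK0 (Real.rpow_nonneg (hvp n).le _)) hsum]
    exact ENNReal.ofReal_ne_top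
  have hae : ∀ᵐ α : Fin k → ℝ, ∀ A : ℕ, ¬ ∃ᶠ n in atTop, α ∈ B A n := by
    rw [ae_all_iff]
    intro A
    exact measure_eq_zero_iff_ae_notMem.1 (hnull A)
  filter_upwards [hae] with α hα
  obtain ⟨A, hA⟩ : ∃ A : ℕ, ∀ i, α i ≤ A := by
    obtain ⟨A, hA⟩ := exists_nat_ge (∑ i, |α i|)
    exact ⟨A, fun i => (le_abs_self _).trans ((single_le_sum (fun j _ => abs_nonneg (α j)) (mem_univ i)).trans hA)⟩
  have h1 := hα A
  rw [not_frequently, eventually_atTop] at h1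
  obtain ⟨n₀, hn₀⟩ := h1
  exact ⟨n₀, fun n hn t ht htB => hn₀ n hn ⟨hA, t, ht, htB⟩⟩

end Pool.Agent.V11286.NE
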