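import Mathlib

/-! From the number of exceptional tuples in boxes of equal side to the number of exceptional tuples in `[2, T] ^ k`. -/

set_option autoImplicit false

open Finset

namespace Pool.Agent.V11286.NE

theorem card_face {k : ℕ} (i : Fin k) (R T : ℕ) :
    (Fintype.piFinset fun j : Fin k => if j = i then range (R + 1) else range (T + 1)).card = (R + 1) * (T + 1) ^ (k - 1) := by
  classical
  rw [Fintype.card_piFinset, ← Finset.mul_prod_erase _ _ (mem_univ i)]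
  have h1 : ∏ j ∈ univ.erase i, (if j = i then range (R + 1) else range (T + 1)).card = (T + 1) ^ (k - 1) := by
    rw [prod_congr rfl (g := fun _ => T + 1) (fun j hj => by rw [if_neg (ne_of_mem_erase hj), card_range]),
      prod_const, card_erase_of_mem (mem_univ i), card_univ, Fintype.card_fin]
  rw [h1, if_pos rfl, card_range]

theorem count_of_boxes {k : ℕ} (hk : 1 ≤ k) (Bad : Set (Fin k → ℕ)) {c C : ℝ} (hc : 0 < c)
    (h : ∀ (x : Fin k → ℕ) (N : ℕ), (∀ i, 1 ≤ x i) → 1 ≤ N →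
      ({t : Fin k → ℕ | (∀ i, x i < t i ∧ t i ≤ x i + N) ∧ t ∈ Bad}.ncard : ℝ) ≤
        C * (N : ℝ) ^ (k - 1) * ∑ i, (1 + N / ((x i : ℝ) + N) ^ c)) :
    ∃ C' : ℝ, ∀ T : ℕ, 1 ≤ T →
      ({t : Fin k → ℕ | (∀ i, t i ≤ T) ∧ t ∈ {t | t ∈ Bad ∧ ∀ i, 2 ≤ t i}}.ncard : ℝ) ≤
        C' * (T : ℝ) ^ ((k : ℝ) - min c 1 / 2) := by
  classical
  set c1 : ℝ := min c 1 with hc1
  have hc10 : 0 < c1 := lt_min hc one_pos
  have hc1c : c1 ≤ c := min_le_left _ _
  have hc11 : c1 ≤ 1 := min_le_right _ _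
  set b : ℝ := c1 / 2 with hb
  refine ⟨3 ^ k * (|C| * (3 * k)) + k * (3 * 2 ^ (k - 1)), fun T hT => ?_⟩
  have hT1 : (1 : ℝ) ≤ T := by exact_mod_cast hT
  have hT0 : (0 : ℝ) < T := by linarith
  set N : ℕ := ⌈(T : ℝ) ^ b⌉₊ with hN
  set R : ℕ := ⌈(T : ℝ) ^ (1 / 2 : ℝ)⌉₊ with hR
  have hTb1 : 1 ≤ (T : ℝ) ^ b := Real.one_le_rpow hT1 (by positivity)
  have hTh1 : 1 ≤ (T : ℝ) ^ (1 / 2 : ℝ) := Real.one_le_rpow hT1 (by norm_num)
  have hNge : (T : ℝ) ^ b ≤ N := Nat.le_ceil _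
  have hNle : (N : ℝ) ≤ 2 * (T : ℝ) ^ b := by
    have := (Nat.ceil_lt_add_one (show (0 : ℝ) ≤ (T : ℝ) ^ b by positivity)).le
    linarith
  have hRge : (T : ℝ) ^ (1 / 2 : ℝ) ≤ R := Nat.le_ceil _
  have hRle : (R : ℝ) ≤ 2 * (T : ℝ) ^ (1 / 2 : ℝ) := by
    have := (Nat.ceil_lt_add_one (show (0 : ℝ) ≤ (T : ℝ) ^ (1 / 2 : ℝ) by positivity)).le
    linarith
  have hN1 : 1 ≤ N := by
    have : (1 : ℝ) ≤ N := by linarith
    exact_mod_cast this
  have hR1 : 1 ≤ R := by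
    have : (1 : ℝ) ≤ R := by linarith
    exact_mod_cast this
  have hN0 : (0 : ℝ) < N := by exact_mod_cast hN1
  have hTbT : (T : ℝ) ^ b ≤ T := by
    calc (T : ℝ) ^ b ≤ (T : ℝ) ^ (1 : ℝ) := Real.rpow_le_rpow_of_exponent_le hT1 (by linarith)
      _ = T := Real.rpow_one _
  set J : ℕ := ⌊(T : ℝ) / N⌋₊ with hJ
  -- the boxes
  set x : (Fin k → ℕ) → Fin k → ℕ := fun j i => R + j i * N with hx
  set Bx : (Fin k → ℕ) → Set (Fin k → ℕ) := fun j => {t | (∀ i, x j i < t i ∧ t i ≤ x j i + N) ∧ t ∈ Bad} with hBx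
  have hBxfin : ∀ j, (Bx j).Finite := fun j =>
    (Set.finite_Iic (fun i => x j i + N)).subset fun t ht i => (ht.1 i).2
  have hbox : ∀ j, ((Bx j).ncard : ℝ) ≤ (N : ℝ) ^ (k - 1) * (|C| * (3 * k)) := by
    intro j
    have h1 := h (x j) N (fun i => by rw [hx]; simp only; omega) hN1
    have h2 : ∑ i, (1 + (N : ℝ) / ((x j i : ℝ) + N) ^ c) ≤ 3 * k := by
      have h3 : ∀ i ∈ (univ : Finset (Fin k)), (1 + (N : ℝ) / ((x j i : ℝ) + N) ^ c) ≤ 3 := by
        intro i _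
        have h4 : (T : ℝ) ^ (1 / 2 : ℝ) ≤ (x j i : ℝ) + N := by
          have : (R : ℝ) ≤ x j i := by
            have : R ≤ x j i := by rw [hx]; simp only; omega
            exact_mod_cast this
          linarith
        have h5 : (T : ℝ) ^ b ≤ ((x j i : ℝ) + N) ^ c := by
          calc (T : ℝ) ^ b ≤ (T : ℝ) ^ (1 / 2 * c) :=
                Real.rpow_le_rpow_of_exponent_le hT1 (by rw [hb]; linarith)
            _ = ((T : ℝ) ^ (1 / 2 : ℝ)) ^ c := by rw [Real.rpow_mul hT0.le]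
            _ ≤ _ := Real.rpow_le_rpow (by positivity) h4 hc.le
        have h6 : (N : ℝ) / ((x j i : ℝ) + N) ^ c ≤ 2 := by
          rw [div_le_iff₀ (by positivity)]
          linarith
        linarith
      refine (sum_le_card_nsmul _ _ _ h3).trans (le_of_eq ?_)
      rw [card_univ, Fintype.card_fin, nsmul_eq_mul]
      ring
    have h7 : 0 ≤ ∑ i, (1 + (N : ℝ) / ((x j i : ℝ) + N) ^ c) := sum_nonneg fun i _ => by positivity
    calc ((Bx j).ncard : ℝ) ≤ C * (N : ℝ) ^ (k - 1) * ∑ i, (1 + (N : ℝ) / ((x j i : ℝ) + N) ^ c) := h1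
      _ ≤ |C| * (N : ℝ) ^ (k - 1) * ∑ i, (1 + (N : ℝ) / ((x j i : ℝ) + N) ^ c) := by
          apply mul_le_mul_of_nonneg_right _ h7
          exact mul_le_mul_of_nonneg_right (le_abs_self C) (by positivity)
      _ ≤ |C| * (N : ℝ) ^ (k - 1) * (3 * k) := mul_le_mul_of_nonneg_left h2 (by positivity)
      _ = _ := by ring
  set JJ : Finset (Fin k → ℕ) := Fintype.piFinset fun _ : Fin k => range (J + 1) with hJJ
  set F : Set (Fin k → ℕ) := {t : Fin k → ℕ | (∀ i, t i ≤ T) ∧ t ∈ {t | t ∈ Bad ∧ ∀ i, 2 ≤ t i}} with hF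
  have hsub : F ⊆ ((JJ.biUnion fun j => (hBxfin j).toFinset) ∪
      (univ.biUnion fun i : Fin k => Fintype.piFinset fun j : Fin k => if j = i then range (R + 1) else range (T + 1)) :
        Finset (Fin k → ℕ)) := by
    rintro t ⟨htT, htB, ht2⟩
    rw [mem_coe, mem_union]
    by_cases hall : ∀ i, R < t i
    · left
      rw [mem_biUnion]
      refine ⟨fun i => (t i - R - 1) / N, ?_, ?_⟩
      · rw [hJJ, Fintype.mem_piFinset]
        intro i
        rw [mem_range, Nat.lt_succ_iff, hJ]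
        apply Nat.le_floor
        rw [le_div_iff₀ hN0]
        have h1 : (t i - R - 1) / N * N ≤ T := (Nat.div_mul_le_self _ _).trans (by have := htT i; omega)
        exact_mod_cast h1
      · rw [Set.Finite.mem_toFinset]
        refine ⟨fun i => ?_, htB⟩
        have h1 := Nat.div_add_mod (t i - R - 1) N
        have h2 := Nat.mod_lt (t i - R - 1) (by omega : 0 < N)
        have h3 := hall i
        have h4 : (t i - R - 1) / N * N = N * ((t i - R - 1) / N) := mul_comm _ _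
        simp only [hx]
        omega
    · right
      push Not at hall
      obtain ⟨i, hi⟩ := hall
      rw [mem_biUnion]
      refine ⟨i, mem_univ _, ?_⟩
      rw [Fintype.mem_piFinset]
      intro j
      split_ifs with hji
      · rw [mem_range, hji]
        omega
      · rw [mem_range]
        have := htT j
        omega
  have hcard : F.ncard ≤ ∑ j ∈ JJ, (Bx j).ncard + k * ((R + 1) * (T + 1) ^ (k - 1)) := by
    refine (Set.ncard_le_ncard hsub (finite_toSet _)).trans ?_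
    rw [Set.ncard_coe_finset]
    refine (card_union_le _ _).trans (add_le_add ?_ ?_)
    · refine card_biUnion_le.trans (le_of_eq (sum_congr rfl fun j _ => ?_))
      rw [Set.ncard_eq_toFinset_card _ (hBxfin j)]
    · refine card_biUnion_le.trans (le_of_eq ?_)
      rw [sum_congr rfl (fun i _ => card_face i R T), sum_const, card_univ, Fintype.card_fin, smul_eq_mul]
  have hcard' : (F.ncard : ℝ) ≤ ∑ j ∈ JJ, ((Bx j).ncard : ℝ) + k * (((R : ℝ) + 1) * ((T : ℝ) + 1) ^ (k - 1)) := by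
    exact_mod_cast hcard
  have hTk : (T : ℝ) ^ ((k : ℝ) - b) = (T : ℝ) ^ k / (T : ℝ) ^ b := by
    rw [Real.rpow_sub hT0, Real.rpow_natCast]
  -- first sum
  have hJle : (J : ℝ) + 1 ≤ 3 * T / N := by
    have h1 : (J : ℝ) ≤ T / N := Nat.floor_le (by positivity)
    have h2 : (1 : ℝ) ≤ 2 * T / N := by
      rw [le_div_iff₀ hN0]
      linarith
    calc (J : ℝ) + 1 ≤ T / N + 2 * T / N := by linarith
      _ = 3 * T / N := by ring
  have hsum1 : ∑ j ∈ JJ, ((Bx j).ncard : ℝ) ≤ 3 ^ k * (|C| * (3 * k)) * (T : ℝ) ^ ((k : ℝ) - b) := by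
    refine (sum_le_card_nsmul _ _ _ fun j _ => hbox j).trans ?_
    have hJJc : (JJ.card : ℝ) = ((J : ℝ) + 1) ^ k := by
      rw [hJJ, Fintype.card_piFinset, prod_const, card_range, card_univ, Fintype.card_fin]
      push_cast
      ring
    rw [nsmul_eq_mul, hJJc]
    have hNk : (N : ℝ) ^ (k - 1) = (N : ℝ) ^ k / N := by
      obtain ⟨l, rfl⟩ : ∃ l, k = l + 1 := ⟨k - 1, by omega⟩
      rw [Nat.add_sub_cancel, pow_succ]
      field_simp
    have h1 : ((J : ℝ) + 1) ^ k ≤ (3 * T / N) ^ k := pow_le_pow_left₀ (by positivity) hJle k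
    calc ((J : ℝ) + 1) ^ k * ((N : ℝ) ^ (k - 1) * (|C| * (3 * k))) ≤
          (3 * T / N) ^ k * ((N : ℝ) ^ (k - 1) * (|C| * (3 * k))) := mul_le_mul_of_nonneg_right h1 (by positivity)
      _ = 3 ^ k * (|C| * (3 * k)) * ((T : ℝ) ^ k / N) := by
          rw [hNk, div_pow, mul_pow]
          field_simp
      _ ≤ 3 ^ k * (|C| * (3 * k)) * ((T : ℝ) ^ k / (T : ℝ) ^ b) := by
          apply mul_le_mul_of_nonneg_left _ (by positivity)
          exact div_le_div_of_nonneg_left (by positivity) (by positivity) hNge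
      _ = _ := by rw [hTk]
  -- second sum
  have hsum2 : (k : ℝ) * (((R : ℝ) + 1) * ((T : ℝ) + 1) ^ (k - 1)) ≤
      k * (3 * 2 ^ (k - 1)) * (T : ℝ) ^ ((k : ℝ) - b) := by
    have h1 : (R : ℝ) + 1 ≤ 3 * (T : ℝ) ^ (1 / 2 : ℝ) := by linarith
    have h2 : ((T : ℝ) + 1) ^ (k - 1) ≤ (2 * T) ^ (k - 1) := pow_le_pow_left₀ (by positivity) (by linarith) _
    have h3 : (T : ℝ) ^ (1 / 2 : ℝ) * (T : ℝ) ^ (k - 1) ≤ (T : ℝ) ^ ((k : ℝ) - b) := by
      rw [← Real.rpow_natCast, ← Real.rpow_add hT0]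
      apply Real.rpow_le_rpow_of_exponent_le hT1
      rw [Nat.cast_sub hk]
      push_cast
      linarith
    calc (k : ℝ) * (((R : ℝ) + 1) * ((T : ℝ) + 1) ^ (k - 1)) ≤
          k * ((3 * (T : ℝ) ^ (1 / 2 : ℝ)) * (2 * T) ^ (k - 1)) := by gcongr
      _ = k * (3 * 2 ^ (k - 1)) * ((T : ℝ) ^ (1 / 2 : ℝ) * (T : ℝ) ^ (k - 1)) := by rw [mul_pow]; ring
      _ ≤ _ := mul_le_mul_of_nonneg_left h3 (by positivity)
  calc (F.ncard : ℝ) ≤ 3 ^ k * (|C| * (3 * k)) * (T : ℝ) ^ ((k : ℝ) - b) +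
        k * (3 * 2 ^ (k - 1)) * (T : ℝ) ^ ((k : ℝ) - b) := by linarith
    _ = _ := by ring

end Pool.Agent.V11286.NE
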