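import Pool.Agent.Y854.GM.WinV

/-! Short windows `[m, m + m ^ c]` in which some property holds outside of exceptional sets `S_m` with at most `M` elements:
for almost all `α` all the integers `t` with `|t - α v_n| ≤ v_n ^ θ` lie in one window `[m, m + m ^ c]` and outside of its
exceptional set. The exceptional `α` have dimension at most `(1 - b + τ) / (1 - θ)`, `θ ≤ b < c`. -/

set_option autoImplicit false

open Finset Filter Topology MeasureTheory

namespace Pool.Agent.V11286.NE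

open Pool.Agent.Y854.GM

theorem no_exc (M : ℕ) {c b : ℝ} (hb : 0 < b) (hbc : b < c) (hc1 : c ≤ 1) (S : ℕ → Finset ℕ) (hS : ∀ m, (S m).card ≤ M)
    {v : ℕ → ℝ} {τ θ : ℝ} (hpos : ∀ n, 1 ≤ v n) (hτ : 0 ≤ τ) (hv : ExpLe v τ) (hθ : θ ≤ b) :
    ∃ E : Set ℝ, dimH E ≤ ENNReal.ofReal ((1 - b + τ) / (1 - θ)) ∧ ∀ α : ℝ, 0 < α → α ∉ E → ∀ N₁ : ℕ,
      ∃ n0 : ℕ, ∀ n : ℕ, n0 ≤ n → ∃ m : ℕ, N₁ ≤ m ∧ ∀ t : ℕ, |(t : ℝ) - α * v n| ≤ (v n) ^ θ →
        m ≤ t ∧ (t : ℝ) ≤ m + (m : ℝ) ^ c ∧ t ∉ S m := by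
  classical
  have hvp : ∀ n, 0 < v n := fun n => lt_of_lt_of_le one_pos (hpos n)
  have htv : Tendsto v atTop atTop := tendsto_of_expLe hvp hτ hv
  set Sw : ℕ → Set ℕ := fun n => {t | ∃ j : ℕ, t ∈ S ⌊(j : ℝ) * (v n) ^ b⌋₊ ∧ ⌊(j : ℝ) * (v n) ^ b⌋₊ ≤ t} with hSw
  obtain ⟨E, hE, hE2⟩ := windowsV Sw (fun _ (t : ℕ) => (t : ℝ)) (v := v) (s := 1 - b) (τ := τ) (θ := θ) 1 hpos hτ hv
    (by linarith) (by linarith) (by
      intro A ε hε
      refine ⟨((A : ℝ) + 3) * M, 0, fun n _ => ?_⟩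
      have hn1 := hpos n
      have hn0 := hvp n
      set L : ℝ := (v n) ^ b with hL
      have hL1 : 1 ≤ L := Real.one_le_rpow hn1 hb.le
      have hL0 : 0 < L := by linarith
      set J : ℕ := ⌊(((A : ℝ) + 1) * v n + 1) / L⌋₊ with hJ
      have hA0 : (0 : ℝ) ≤ A := Nat.cast_nonneg A
      have hsub : {t | t ∈ Sw n ∧ ((t : ℕ) : ℝ) ≤ ((A : ℝ) + 1) * v n} ⊆
          (((range (J + 1)).biUnion fun j => S ⌊(j : ℝ) * L⌋₊ : Finset ℕ) : Set ℕ) := by
        rintro t ⟨⟨j, hj, hjt⟩, ht⟩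
        rw [mem_coe, mem_biUnion]
        refine ⟨j, ?_, hj⟩
        rw [mem_range, Nat.lt_succ_iff]
        apply Nat.le_floor
        rw [le_div_iff₀ hL0]
        have h1 : (j : ℝ) * L < ⌊(j : ℝ) * L⌋₊ + 1 := Nat.lt_floor_add_one _
        have h2 : ((⌊(j : ℝ) * L⌋₊ : ℕ) : ℝ) ≤ t := by exact_mod_cast hjt
        linarith
      refine ⟨(finite_toSet _).subset hsub, ?_⟩
      have h1 : {t | t ∈ Sw n ∧ ((t : ℕ) : ℝ) ≤ ((A : ℝ) + 1) * v n}.ncard ≤ (J + 1) * M := by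
        refine (Set.ncard_le_ncard hsub (finite_toSet _)).trans ?_
        rw [Set.ncard_coe_finset]
        refine card_biUnion_le.trans ((sum_le_card_nsmul _ _ M fun j _ => hS _).trans ?_)
        rw [card_range, smul_eq_mul]
      have h2 : ({t | t ∈ Sw n ∧ ((t : ℕ) : ℝ) ≤ ((A : ℝ) + 1) * v n}.ncard : ℝ) ≤ ((J : ℝ) + 1) * M := by
        exact_mod_cast h1
      refine h2.trans ?_
      have h3 : (J : ℝ) ≤ (((A : ℝ) + 1) * v n + 1) / L := Nat.floor_le (by positivity)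
      have h4 : (1 : ℝ) ≤ (v n) ^ (1 - b) := Real.one_le_rpow hn1 (by linarith)
      have h5 : (((A : ℝ) + 1) * v n + 1) / L ≤ ((A : ℝ) + 2) * (v n) ^ (1 - b) := by
        have e1 : v n / L = (v n) ^ (1 - b) := by rw [hL, Real.rpow_sub hn0, Real.rpow_one]
        have e2 : 1 / L ≤ 1 := by rw [div_le_one hL0]; exact hL1
        rw [add_div, mul_div_assoc, e1]
        linarith
      have h6 : (v n) ^ (1 - b) ≤ (v n) ^ (1 - b + ε) := Real.rpow_le_rpow_of_exponent_le hn1 (by linarith)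
      have h7 : (J : ℝ) + 1 ≤ ((A : ℝ) + 3) * (v n) ^ (1 - b + ε) := by
        calc (J : ℝ) + 1 ≤ ((A : ℝ) + 2) * (v n) ^ (1 - b) + (v n) ^ (1 - b) := by linarith
          _ = ((A : ℝ) + 3) * (v n) ^ (1 - b) := by ring
          _ ≤ _ := mul_le_mul_of_nonneg_left h6 (by positivity)
      calc ((J : ℝ) + 1) * M ≤ (((A : ℝ) + 3) * (v n) ^ (1 - b + ε)) * M :=
            mul_le_mul_of_nonneg_right h7 (Nat.cast_nonneg _)
        _ = _ := by ring)
  refine ⟨E, hE, fun α hα hαE N₁ => ?_⟩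
  obtain ⟨n1, hn1⟩ := hE2 α hα hαE
  have t1 : Tendsto (fun n => (v n) ^ (1 - b)) atTop atTop := (tendsto_rpow_atTop (by linarith)).comp htv
  have t2 : Tendsto (fun n => (v n) ^ (c - b)) atTop atTop := (tendsto_rpow_atTop (by linarith)).comp htv
  obtain ⟨n2, hn2⟩ := eventually_atTop.1 (((t1.eventually_ge_atTop (6 / α)).and
    (t2.eventually_ge_atTop (4 * (2 / α) ^ c))).and (htv.eventually_ge_atTop (2 * N₁ / α)))
  refine ⟨max n1 n2, fun n hn => ?_⟩
  have hw := hn1 n (le_of_max_le_left hn)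
  obtain ⟨⟨a1, a2⟩, a3⟩ := hn2 n (le_of_max_le_right hn)
  have hv1 := hpos n
  have hv0 := hvp n
  set L : ℝ := (v n) ^ b with hL
  have hL1 : 1 ≤ L := Real.one_le_rpow hv1 hb.le
  have hL0 : 0 < L := by linarith
  have hθL : (v n) ^ θ ≤ L := Real.rpow_le_rpow_of_exponent_le hv1 hθ
  have hθ0 : 0 < (v n) ^ θ := Real.rpow_pos_of_pos hv0 _
  -- `6 L ≤ α v`
  have h6 : 6 * L ≤ α * v n := by
    have e1 : v n = (v n) ^ (1 - b) * L := by rw [hL, ← Real.rpow_add hv0]; simp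
    rw [div_le_iff₀ hα] at a1
    calc 6 * L ≤ ((v n) ^ (1 - b) * α) * L := mul_le_mul_of_nonneg_right a1 hL0.le
      _ = α * ((v n) ^ (1 - b) * L) := by ring
      _ = α * v n := by rw [← e1]
  set j : ℕ := ⌊(α * v n - (v n) ^ θ) / L⌋₊ with hj
  set m : ℕ := ⌊(j : ℝ) * L⌋₊ with hm
  have hjle : (j : ℝ) * L ≤ α * v n - (v n) ^ θ := by
    have h1 : (j : ℝ) ≤ (α * v n - (v n) ^ θ) / L := Nat.floor_le (div_nonneg (by linarith) hL0.le)
    rwa [le_div_iff₀ hL0] at h1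
  have hjgt : α * v n - (v n) ^ θ < (j : ℝ) * L + L := by
    have h1 : (α * v n - (v n) ^ θ) / L < j + 1 := Nat.lt_floor_add_one _
    rw [div_lt_iff₀ hL0] at h1
    linarith
  have hmle : (m : ℝ) ≤ (j : ℝ) * L := Nat.floor_le (by positivity)
  have hmgt : (j : ℝ) * L < m + 1 := Nat.lt_floor_add_one _
  have hmhalf : α / 2 * v n ≤ m := by linarith
  refine ⟨m, ?_, fun t ht => ?_⟩
  · have h1 : (N₁ : ℝ) ≤ m := by
      rw [div_le_iff₀ hα] at a3
      linarith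
    exact_mod_cast h1
  · rw [abs_le] at ht
    have hmt : (m : ℝ) ≤ t := by linarith
    have hmt' : m ≤ t := by exact_mod_cast hmt
    refine ⟨hmt', ?_, fun htS => ?_⟩
    · have h1 : (t : ℝ) ≤ m + 4 * L := by linarith
      have h2 : 4 * L ≤ (m : ℝ) ^ c := by
        have h3 : (α / 2 * v n) ^ c ≤ (m : ℝ) ^ c :=
          Real.rpow_le_rpow (by positivity) hmhalf (by linarith)
        refine le_trans ?_ h3
        rw [Real.mul_rpow (by positivity) hv0.le]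
        have e1 : (v n) ^ c = (v n) ^ (c - b) * L := by rw [hL, ← Real.rpow_add hv0]; simp
        have e2 : (α / 2) ^ c * (2 / α) ^ c = 1 := by
          rw [← Real.mul_rpow (by positivity) (by positivity)]
          have : α / 2 * (2 / α) = 1 := by field_simp
          rw [this, Real.one_rpow]
        rw [e1]
        calc 4 * L = (α / 2) ^ c * ((4 * (2 / α) ^ c) * L) := by
              rw [show (α / 2) ^ c * ((4 * (2 / α) ^ c) * L) = 4 * ((α / 2) ^ c * (2 / α) ^ c) * L by ring, e2]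
              ring
          _ ≤ (α / 2) ^ c * ((v n) ^ (c - b) * L) := by gcongr
      linarith
    · have h1 := hw t ⟨j, htS, hmt'⟩
      rw [one_mul] at h1
      have h2 : |(t : ℝ) - α * v n| ≤ (v n) ^ θ := abs_le.2 ht
      linarith

end Pool.Agent.V11286.NE
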